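import Pool.Agent.Y503.CR.Reg

/-!
Maps of high regularity.
-/

set_option autoImplicit false

open scoped Topology ContDiff ComplexConjugate
open Set Filter MeasureTheory Complex

namespace Pool.Agent.Y503.CR

open Pool.Agent.Results.MP_c4ba3a_an.SphereCR

/-- the components of the map -/
noncomputable def cm (m : ℕ) (x : Fin 4 → ℂ) : Fin (m + 6) → ℂ :=
  Fin.addCases (fun i : Fin m => (2 * x 1) ^ (i : ℕ) * (1 - 2 * x 2))
    (fun j : Fin 6 => 2 ^ m * ww m 1 (PP j) x)

/-- the map into the sphere -/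
noncomputable def fm (m : ℕ) (x : Fin 4 → ℂ) : EuclideanSpace ℂ (Fin (m + 6)) :=
  WithLp.toLp 2 (cm m x)

theorem fm_left (m : ℕ) (x : Fin 4 → ℂ) (i : Fin m) :
    fm m x (Fin.castAdd 6 i) = (2 * x 1) ^ (i : ℕ) * (1 - 2 * x 2) := by
  show cm m x (Fin.castAdd 6 i) = _
  rw [cm, Fin.addCases_left]

theorem fm_right (m : ℕ) (x : Fin 4 → ℂ) (j : Fin 6) :
    fm m x (Fin.natAdd m j) = 2 ^ m * ww m 1 (PP j) x := by
  show cm m x (Fin.natAdd m j) = _
  rw [cm, Fin.addCases_right]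

theorem left_contDiff (m : ℕ) (i : Fin m) :
    ContDiff ℂ ω (fun x : Fin 4 → ℂ => (2 * x 1) ^ (i : ℕ) * (1 - 2 * x 2)) := by fun_prop

theorem fm_CR (m : ℕ) (hm : 5 ≤ m) (i : Fin (m + 6)) : IsCRFunction MM (fun x => fm m x i) := by
  refine Fin.addCases (fun i => ?_) (fun j => ?_) i
  · simp only [fm_left]
    exact contDiff_CR (left_contDiff m i)
  · simp only [fm_right]
    have h1 : (fun x => (2 : ℂ) ^ m * ww m 1 (PP j) x) =
        ww m 1 (fun x => 2 ^ m * PP j x) := by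
      funext x
      simp only [ww]
      ring
    rw [h1]
    exact ww_CR m 1 (by omega) _ (contDiff_const.mul (PP_contDiff j))

theorem fm_class_aux (k m : ℕ) (hm : 2 * k + 3 ≤ m) (d : ℕ) (V : Set (EuclideanSpace ℝ (Fin d)))
    (γ : EuclideanSpace ℝ (Fin d) → (Fin 4 → ℂ)) (hγ : IsLocalParam MM V γ) (i : Fin (m + 6)) :
    ContDiffOn ℝ k (fun y => fm m (γ y) i) V := by
  refine Fin.addCases (fun i => ?_) (fun j => ?_) i
  · simp only [fm_left]
    have h1 : ContDiffOn ℝ k γ V := hγ.2.1.of_le (by exact_mod_cast le_top)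
    have h2 : ContDiff ℝ k (fun x : Fin 4 → ℂ => (2 * x 1) ^ (i : ℕ) * (1 - 2 * x 2)) := by
      fun_prop
    exact h2.comp_contDiffOn h1
  · simp only [fm_right]
    exact contDiffOn_const.mul (ww_class k m 1 _ (by omega) (PP_contDiff j) d V γ hγ)

theorem fm_class (k m : ℕ) (hm : 2 * k + 3 ≤ m) (d : ℕ) (V : Set (EuclideanSpace ℝ (Fin d)))
    (γ : EuclideanSpace ℝ (Fin d) → (Fin 4 → ℂ)) (hγ : IsLocalParam MM V γ) :
    ContDiffOn ℝ k (fun y => fm m (γ y)) V := by
  have key : ContDiffOn ℝ k (fun y => cm m (γ y)) V := by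
    rw [contDiffOn_pi]
    intro i
    have : (fun y => cm m (γ y) i) = fun y => fm m (γ y) i := rfl
    rw [this]
    exact fm_class_aux k m hm d V γ hγ i
  exact (((EuclideanSpace.equiv (Fin (m + 6)) ℂ).symm :
    (Fin (m + 6) → ℂ) →L[ℂ] EuclideanSpace ℂ (Fin (m + 6))).restrictScalars
      ℝ).contDiff.comp_contDiffOn key

theorem fm_norm (m : ℕ) (hm : 1 ≤ m) {x : Fin 4 → ℂ} (hx : rho x = 0) : ‖fm m x‖ = 1 := by
  have hs := sphere_norm hx
  have h : ‖fm m x‖ ^ 2 = 1 := by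
    rw [EuclideanSpace.norm_sq_eq, Fin.sum_univ_add]
    simp only [fm_left, fm_right]
    set s : ℝ := 4 * ‖x 1‖ ^ 2 with hsdef
    have hu : ‖1 - 2 * x 2‖ ^ 2 = 1 - s := by linarith
    have e1 : ∑ i : Fin m, ‖(2 * x 1) ^ (i : ℕ) * (1 - 2 * x 2)‖ ^ 2 = 1 - s ^ m := by
      have e0 : ∀ i : Fin m, ‖(2 * x 1) ^ (i : ℕ) * (1 - 2 * x 2)‖ ^ 2 = (1 - s) * s ^ (i : ℕ) := by
        intro i
        rw [norm_mul, mul_pow, hu, norm_pow, norm_mul, Complex.norm_ofNat, ← pow_mul,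
          mul_comm (i : ℕ) 2, pow_mul, mul_pow, hsdef]
        ring
      simp only [e0]
      rw [← Finset.mul_sum, Fin.sum_univ_eq_sum_range (fun i => s ^ i) m, mul_neg_geom_sum]
    have e2 : ∑ j : Fin 6, ‖(2 : ℂ) ^ m * ww m 1 (PP j) x‖ ^ 2 = s ^ m := by
      by_cases h0 : x = 0
      · subst h0
        have hs0 : s ^ m = 0 := by
          have h1 : m ≠ 0 := by omega
          simp [hsdef, h1]
        rw [hs0]
        refine Finset.sum_eq_zero fun j _ => ?_
        rw [ww_zero m 1 (by omega)]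
        simp
      · have hQ : QQ x ≠ 0 := QQ_ne hx h0
        have hq : 0 < ‖QQ x‖ := norm_pos_iff.mpr hQ
        have hP := sum_PP x hx
        have e : ∀ j : Fin 6, ‖(2 : ℂ) ^ m * ww m 1 (PP j) x‖ ^ 2 =
            s ^ m / ‖QQ x‖ ^ 2 * ‖PP j x‖ ^ 2 := by
          intro j
          have e3 : s ^ m = (2 ^ m * ‖x 1‖ ^ m) ^ 2 := by
            rw [hsdef, ← mul_pow, ← pow_mul, mul_comm m 2, pow_mul]
            congr 1
            ring
          rw [e3]
          simp only [ww, norm_mul, norm_pow, norm_inv, Complex.norm_ofNat, pow_one]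
          field_simp
        simp only [e]
        rw [← Finset.mul_sum, hP]
        field_simp
    rw [e1, e2]
    ring
  have h2 := norm_nonneg (fm m x)
  nlinarith

/-- the numerator of the map over the common denominator `QQ` -/
noncomputable def nmv (m : ℕ) (x : Fin 4 → ℂ) : Fin (m + 6) → ℂ :=
  Fin.addCases (fun i : Fin m => QQ x * ((2 * x 1) ^ (i : ℕ) * (1 - 2 * x 2)))
    (fun j : Fin 6 => 2 ^ m * (x 1 ^ m * PP j x))

noncomputable def nm (m : ℕ) (x : Fin 4 → ℂ) : EuclideanSpace ℂ (Fin (m + 6)) :=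
  WithLp.toLp 2 (nmv m x)

theorem nm_left (m : ℕ) (x : Fin 4 → ℂ) (i : Fin m) :
    nm m x (Fin.castAdd 6 i) = QQ x * ((2 * x 1) ^ (i : ℕ) * (1 - 2 * x 2)) := by
  show nmv m x (Fin.castAdd 6 i) = _
  rw [nmv, Fin.addCases_left]

theorem nm_right (m : ℕ) (x : Fin 4 → ℂ) (j : Fin 6) :
    nm m x (Fin.natAdd m j) = 2 ^ m * (x 1 ^ m * PP j x) := by
  show nmv m x (Fin.natAdd m j) = _
  rw [nmv, Fin.addCases_right]

theorem nm_contDiff (m : ℕ) : ContDiff ℂ ω (nm m) := by
  rw [contDiff_euclidean]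
  intro i
  refine Fin.addCases (fun i => ?_) (fun j => ?_) i
  · simp only [nm_left]
    exact QQ_contDiff.mul (left_contDiff m i)
  · simp only [nm_right]
    have h1 : ContDiff ℂ ω (fun x : Fin 4 → ℂ => x 1 ^ m) := by fun_prop
    exact contDiff_const.mul (h1.mul (PP_contDiff j))

theorem nm_eq (m : ℕ) {x : Fin 4 → ℂ} (hQ : QQ x ≠ 0) : QQ x • fm m x = nm m x := by
  ext i
  refine Fin.addCases (fun i => ?_) (fun j => ?_) i
  · rw [nm_left]
    show QQ x * fm m x (Fin.castAdd 6 i) = _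
    rw [fm_left]
  · rw [nm_right]
    show QQ x * fm m x (Fin.natAdd m j) = _
    rw [fm_right, ww]
    field_simp

theorem no_quotient' (m : ℕ) (G : (Fin 4 → ℂ) → EuclideanSpace ℂ (Fin (m + 6)))
    (hG : ∀ᶠ y in 𝓝 (0 : Fin 4 → ℂ), QQ y • G y = nm m y) : False := by
  have hc : Continuous zp := by
    apply continuous_pi
    intro i
    fin_cases i
    · exact continuous_const
    · exact continuous_ofReal
    · exact continuous_ofReal
    · exact continuous_ofReal.pow 2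
  have h0 : zp 0 = 0 := by
    ext i; fin_cases i <;> simp [zp]
  have ht : Tendsto zp (𝓝[>] 0) (𝓝 0) := by
    have := (hc.tendsto 0).mono_left (nhdsWithin_le_nhds (s := Ioi (0 : ℝ)))
    rwa [h0] at this
  obtain ⟨t, ht1, ht2⟩ := ((ht.eventually hG).and self_mem_nhdsWithin).exists
  have htpos : (0 : ℝ) < t := ht2
  have hQ : QQ (zp t) = 0 := by simp [QQ, zp]
  rw [hQ, zero_smul] at ht1
  have h5 := congrArg (fun v : EuclideanSpace ℂ (Fin (m + 6)) => v (Fin.natAdd m 2)) ht1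
  have h6 : (nm m (zp t)) (Fin.natAdd m 2) = 2 ^ m * ((t : ℂ) ^ m * (t : ℂ) ^ 2) := by
    rw [nm_right]
    simp [PP, zp]
  have h7 : (0 : ℂ) = 2 ^ m * ((t : ℂ) ^ m * (t : ℂ) ^ 2) := by
    rw [← h6]; exact h5
  have ht0 : (t : ℂ) ≠ 0 := by exact_mod_cast htpos.ne'
  have h8 : (2 ^ m * ((t : ℂ) ^ m * (t : ℂ) ^ 2)) ≠ 0 :=
    mul_ne_zero (pow_ne_zero _ two_ne_zero) (mul_ne_zero (pow_ne_zero m ht0) (pow_ne_zero 2 ht0))
  exact h8 h7.symm

theorem fm_meromorphic (m : ℕ) : ExtendsMeromorphically MM (fm m) 0 := by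
  refine ⟨univ, nm m, QQ, isOpen_univ, mem_univ _,
    fun x _ => (nm_contDiff m).contDiffAt.analyticAt, fun x _ => QQ_contDiff.contDiffAt.analyticAt,
    fun x _ => QQ_not_zero x, ?_⟩
  rintro x ⟨-, hx⟩ G hG h
  by_cases h0 : x = 0
  · subst h0
    exact absurd h (fun h => no_quotient' m G h)
  · have hQ : QQ x ≠ 0 := QQ_ne hx h0
    have h1 := h.self_of_nhds
    rw [← nm_eq m hQ] at h1
    exact (smul_right_injective _ hQ h1).symm

theorem fm_not_holomorphic (m : ℕ) : ¬ ExtendsHolomorphically MM (fm m) 0 := by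
  rintro ⟨U, G, hU, h0U, hG, hfG⟩
  obtain ⟨r, hr, hrU⟩ := Metric.isOpen_iff.mp hU 0 h0U
  set t : ℝ := min (1 / 4) (r ^ 2 / 16) with htdef
  have ht0 : 0 < t := by positivity
  have ht1 : t ≤ 1 / 4 := min_le_left _ _
  have ht2 : t ≤ r ^ 2 / 16 := min_le_right _ _
  set a : ℝ := √(t - t ^ 2) with hadef
  have ha0 : 0 < t - t ^ 2 := by nlinarith
  have hapos : 0 < a := Real.sqrt_pos.mpr ha0
  have hasq : a ^ 2 = t - t ^ 2 := Real.sq_sqrt ha0.le
  have har : a < r := by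
    have : a ^ 2 < r ^ 2 := by nlinarith [sq_nonneg t, sq_nonneg r, pow_pos hr 2]
    exact lt_of_pow_lt_pow_left₀ 2 hr.le this
  have hta : t ≤ a := by
    have : t ^ 2 ≤ a ^ 2 := by rw [hasq]; nlinarith
    exact le_of_sq_le_sq this hapos.le
  have h2tr : 2 * t < r := by
    by_contra h
    push Not at h
    have h5 : 2 * t ≤ 2 * (r ^ 2 / 16) := by linarith
    have h6 : r ≤ r ^ 2 / 8 := by linarith
    have h7 : 8 ≤ r := by nlinarith
    linarith
  have hmem : ∀ w : ℂ, ‖w‖ < r → ln a t w ∈ U := by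
    intro w hw
    apply hrU
    rw [Metric.mem_ball, dist_zero_right, pi_norm_lt_iff hr]
    intro i
    fin_cases i
    · show ‖(0 : ℂ)‖ < r
      simpa using hr
    · show ‖(a : ℂ)‖ < r
      rw [Complex.norm_real, Real.norm_of_nonneg hapos.le]
      exact har
    · show ‖(t : ℂ)‖ < r
      rw [Complex.norm_real, Real.norm_of_nonneg ht0.le]
      linarith
    · exact hw
  have hlnM : ∀ v : ℝ, ln a t (2 * t + v * I) ∈ MM := by
    intro v
    show rho _ = 0
    rw [rho_zero_iff]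
    constructor
    · show (t : ℂ).re = normSq (a : ℂ) + normSq (t : ℂ)
      rw [ofReal_re, normSq_ofReal, normSq_ofReal]
      nlinarith
    · show ((2 * t + v * I : ℂ)).re = normSq (0 : ℂ) + 2 * (normSq (a : ℂ) + normSq (t : ℂ))
      rw [normSq_ofReal, normSq_ofReal]
      simp
      nlinarith
  have hln : ContDiff ℂ ω (ln a t) := by
    rw [contDiff_pi]
    intro i
    fin_cases i
    · exact contDiff_const
    · exact contDiff_const
    · exact contDiff_const
    · exact contDiff_id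
  set K : ℂ := 2 ^ m * ((a : ℂ) ^ m * (t : ℂ) ^ 2) with hK
  let h : ℂ → ℂ := fun w => (G (ln a t w)) (Fin.natAdd m 2) * (w - (t : ℂ) ^ 2)
  have hh1 : AnalyticOnNhd ℂ h (Metric.ball 0 r) := by
    intro w hw
    rw [Metric.mem_ball, dist_zero_right] at hw
    have h1 : AnalyticAt ℂ G (ln a t w) := hG _ (hmem w hw)
    have h2 : AnalyticAt ℂ (ln a t) w := hln.contDiffAt.analyticAt
    have h3 : AnalyticAt ℂ (fun w => G (ln a t w)) w := h1.comp h2
    have h4 : AnalyticAt ℂ (fun w => (G (ln a t w)) (Fin.natAdd m 2)) w :=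
      ((EuclideanSpace.proj (Fin.natAdd m 2 : Fin (m + 6)) :
        EuclideanSpace ℂ (Fin (m + 6)) →L[ℂ] ℂ).analyticAt _).comp h3
    exact h4.mul (analyticAt_id.sub analyticAt_const)
  have hh2 : AnalyticOnNhd ℂ (fun _ : ℂ => K) (Metric.ball 0 r) :=
    fun w _ => analyticAt_const
  have hev : ∀ v : ℝ, ‖(2 * t + v * I : ℂ)‖ < r → h (2 * t + v * I) = K := by
    intro v hv
    have h1 := hfG _ ⟨hmem _ hv, hlnM v⟩
    show (G (ln a t (2 * t + v * I))) (Fin.natAdd m 2) * ((2 * t + v * I) - (t : ℂ) ^ 2) = _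
    rw [← h1]
    have hQ : QQ (ln a t (2 * t + v * I)) ≠ 0 := by
      apply QQ_ne (hlnM v)
      intro h
      have := congrFun h 2
      have h3 : (t : ℂ) = 0 := this
      exact ht0.ne' (by exact_mod_cast h3)
    have hQ2 : QQ (ln a t (2 * t + v * I)) = (2 * t + v * I) - (t : ℂ) ^ 2 := rfl
    have h2 : QQ (ln a t (2 * t + v * I)) * (fm m (ln a t (2 * t + v * I))) (Fin.natAdd m 2) =
        K := by
      have h3 := congrArg (fun v : EuclideanSpace ℂ (Fin (m + 6)) => v (Fin.natAdd m 2))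
        (nm_eq m hQ)
      have h4 : (nm m (ln a t (2 * t + v * I))) (Fin.natAdd m 2) = K := by
        rw [nm_right]
        rfl
      rw [← h4]
      exact h3
    rw [← hQ2, mul_comm]
    exact h2
  have h2t : ‖((2 * t : ℝ) : ℂ)‖ < r := by
    rw [Complex.norm_real, Real.norm_of_nonneg (by positivity)]
    exact h2tr
  have hcv : Continuous (fun v : ℝ => (2 * t + v * I : ℂ)) := by fun_prop
  have hfreq : ∃ᶠ w in 𝓝[≠] ((2 * t : ℝ) : ℂ), h w = K := by
    have htend : Tendsto (fun v : ℝ => (2 * t + v * I : ℂ)) (𝓝[>] 0) (𝓝[≠] ((2 * t : ℝ) : ℂ)) := by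
      rw [tendsto_nhdsWithin_iff]
      constructor
      · have := (hcv.tendsto 0).mono_left (nhdsWithin_le_nhds (s := Ioi (0 : ℝ)))
        simpa using this
      · filter_upwards [self_mem_nhdsWithin] with v hv
        have hv' : (0 : ℝ) < v := hv
        intro h
        have h' : (2 * t + v * I : ℂ) = ((2 * t : ℝ) : ℂ) := h
        have := congrArg Complex.im h'
        simp at this
        exact hv'.ne' this
    refine htend.frequently ?_
    apply Eventually.frequently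
    have h3 : ∀ᶠ v : ℝ in 𝓝[>] 0, ‖(2 * t + v * I : ℂ)‖ < r := by
      have := ((hcv.norm).tendsto 0).mono_left (nhdsWithin_le_nhds (s := Ioi (0 : ℝ)))
      refine this.eventually (gt_mem_nhds ?_)
      simpa using h2t
    filter_upwards [h3] with v hv
    exact hev v hv
  have hpre : IsPreconnected (Metric.ball (0 : ℂ) r) := (convex_ball 0 r).isPreconnected
  have hmem2 : ((2 * t : ℝ) : ℂ) ∈ Metric.ball (0 : ℂ) r := by
    rw [Metric.mem_ball, dist_zero_right]; exact h2t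
  have heq := hh1.eqOn_of_preconnected_of_frequently_eq hh2 hpre hmem2 hfreq
  have hmem3 : ((t : ℂ) ^ 2) ∈ Metric.ball (0 : ℂ) r := by
    rw [Metric.mem_ball, dist_zero_right, norm_pow, Complex.norm_real,
      Real.norm_of_nonneg ht0.le]
    nlinarith
  have h9 : h ((t : ℂ) ^ 2) = K := heq hmem3
  have h10 : (0 : ℂ) = K := by
    rw [← h9]
    show (0 : ℂ) = (G (ln a t ((t : ℂ) ^ 2))) (Fin.natAdd m 2) * ((t : ℂ) ^ 2 - (t : ℂ) ^ 2)
    rw [sub_self, mul_zero]
  have ht' : (t : ℂ) ≠ 0 := by exact_mod_cast ht0.ne'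
  have ha' : (a : ℂ) ≠ 0 := by exact_mod_cast hapos.ne'
  have h11 : K ≠ 0 :=
    mul_ne_zero (pow_ne_zero _ two_ne_zero) (mul_ne_zero (pow_ne_zero m ha') (pow_ne_zero 2 ht'))
  exact h11 h10.symm

end Pool.Agent.Y503.CR
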