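import Pool.Agent.Results.MP_c4ba3a_an.SphereCR

/-!
Regularity of the quotients on the manifold.
-/

set_option autoImplicit false

open scoped Topology ContDiff ComplexConjugate
open Set Filter MeasureTheory Complex

namespace Pool.Agent.Y503.CR

open Pool.Agent.Results.MP_c4ba3a_an.SphereCR

/-- the quotients -/
noncomputable def ww (a b : ℕ) (g : (Fin 4 → ℂ) → ℂ) (x : Fin 4 → ℂ) : ℂ :=
  x 1 ^ a * g x * ((QQ x)⁻¹) ^ b

theorem ww_bound (a b : ℕ) (hab : 2 * b ≤ a) (g : (Fin 4 → ℂ) → ℂ) {x : Fin 4 → ℂ}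
    (hx : rho x = 0) : ‖ww a b g x‖ ≤ ‖x 1‖ ^ (a - 2 * b) * ‖g x‖ := by
  have h1 : ‖x 1‖ ^ 2 * ‖(QQ x)⁻¹‖ ≤ 1 := by
    rw [norm_inv]
    have ha := a_sq_le x hx
    rcases (norm_nonneg (QQ x)).eq_or_lt with h | h
    · rw [← h]; simp
    · rw [← div_eq_mul_inv]
      exact (div_le_one h).2 ha
  have h2 : (‖x 1‖ ^ 2 * ‖(QQ x)⁻¹‖) ^ b ≤ 1 := pow_le_one₀ (by positivity) h1
  have e : ‖ww a b g x‖ = (‖x 1‖ ^ (a - 2 * b) * ‖g x‖) * (‖x 1‖ ^ 2 * ‖(QQ x)⁻¹‖) ^ b := by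
    unfold ww
    rw [norm_mul, norm_mul, norm_pow, norm_pow, mul_pow, ← pow_mul]
    have : ‖x 1‖ ^ a = ‖x 1‖ ^ (a - 2 * b) * ‖x 1‖ ^ (2 * b) := by
      rw [← pow_add]
      congr 1
      omega
    rw [this]
    ring
  rw [e]
  calc _ ≤ (‖x 1‖ ^ (a - 2 * b) * ‖g x‖) * 1 := mul_le_mul_of_nonneg_left h2 (by positivity)
    _ = _ := mul_one _

theorem ww_zero (a b : ℕ) (ha : a ≠ 0) (g : (Fin 4 → ℂ) → ℂ) : ww a b g 0 = 0 := by
  simp [ww, ha]

theorem ww_contOn (a b : ℕ) (hab : 2 * b + 1 ≤ a) (g : (Fin 4 → ℂ) → ℂ) (hg : ContDiff ℂ ω g) :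
    ContinuousOn (ww a b g) MM := by
  intro x hx
  by_cases h0 : x = 0
  · subst h0
    have hb : Tendsto (fun x : Fin 4 → ℂ => ‖x 1‖ ^ (a - 2 * b) * ‖g x‖) (𝓝[MM] 0) (𝓝 0) := by
      have hc : Continuous (fun x : Fin 4 → ℂ => ‖x 1‖ ^ (a - 2 * b) * ‖g x‖) := by
        have h1 := hg.continuous.norm
        fun_prop
      have := (hc.tendsto 0).mono_left (nhdsWithin_le_nhds (s := MM))
      have e : ‖(0 : Fin 4 → ℂ) 1‖ ^ (a - 2 * b) * ‖g 0‖ = 0 := by
        have : a - 2 * b ≠ 0 := by omega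
        simp [this]
      rwa [e] at this
    show Tendsto (ww a b g) (𝓝[MM] 0) (𝓝 (ww a b g 0))
    rw [ww_zero a b (by omega)]
    refine squeeze_zero_norm' ?_ hb
    filter_upwards [self_mem_nhdsWithin] with y hy
    exact ww_bound a b (by omega) g hy
  · have hQ : QQ x ≠ 0 := QQ_ne hx h0
    have c1 : ContinuousAt (fun x => (QQ x)⁻¹) x := QQ_contDiff.continuous.continuousAt.inv₀ hQ
    have c2 : ContinuousAt g x := hg.continuous.continuousAt
    have c3 : ContinuousAt (fun x : Fin 4 → ℂ => x 1) x := (continuous_apply 1).continuousAt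
    exact (((c3.pow a).mul c2).mul (c1.pow b)).continuousWithinAt

/-- the coefficients of the derivative -/
noncomputable def dw (a b : ℕ) (g : (Fin 4 → ℂ) → ℂ) (i : Fin 4) (x : Fin 4 → ℂ) : ℂ :=
  ww (a - 1) b (fun y => (if i = 1 then (a : ℂ) else 0) * g y) x +
    ww a b (fun y => fderiv ℂ g y (Pi.single i 1)) x -
    ww a (b + 1) (fun y => b * g y * fderiv ℂ QQ y (Pi.single i 1)) x

/-- the derivative -/
noncomputable def DW (a b : ℕ) (g : (Fin 4 → ℂ) → ℂ) (x : Fin 4 → ℂ) : (Fin 4 → ℂ) →L[ℂ] ℂ :=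
  ∑ i, dw a b g i x • pr i

theorem fd_contDiff {g : (Fin 4 → ℂ) → ℂ} (hg : ContDiff ℂ ω g) (i : Fin 4) :
    ContDiff ℂ ω (fun y => fderiv ℂ g y (Pi.single i 1)) :=
  (hg.fderiv_right (m := ω) (by simp)).clm_apply contDiff_const

theorem expand (L : (Fin 4 → ℂ) →L[ℂ] ℂ) : L = ∑ i, L (Pi.single i 1) • pr i := by
  ext v
  have h : v = ∑ i, v i • (Pi.single i (1 : ℂ) : Fin 4 → ℂ) := by
    ext j
    simp [Finset.sum_apply, Pi.single_apply]
  conv_lhs => rw [h, map_sum]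
  simp only [map_smul, smul_eq_mul, sum_apply, smul_apply,
    pr, ContinuousLinearMap.proj_apply]
  exact Finset.sum_congr rfl fun i _ => mul_comm _ _

theorem ww_deriv (a b : ℕ) (g : (Fin 4 → ℂ) → ℂ) (hg : ContDiff ℂ ω g) {x : Fin 4 → ℂ}
    (hQ : QQ x ≠ 0) : HasFDerivAt (ww a b g) (DW a b g x) x := by
  have h1 : HasFDerivAt (fun x : Fin 4 → ℂ => x 1) (pr 1) x := (pr 1).hasFDerivAt
  have h2 : HasFDerivAt g (fderiv ℂ g x) x := (hg.differentiable (by simp) x).hasFDerivAt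
  have h3 : HasFDerivAt QQ (fderiv ℂ QQ x) x :=
    (QQ_contDiff.differentiable (by simp) x).hasFDerivAt
  have h5 : HasFDerivAt (fun x => (QQ x)⁻¹) ((-(QQ x ^ 2)⁻¹) • fderiv ℂ QQ x) x :=
    (hasDerivAt_inv hQ).comp_hasFDerivAt x h3
  have h4 := ((h1.pow a).mul h2).mul (h5.pow b)
  refine h4.congr_fderiv ?_
  rw [DW]
  have e2 := expand (fderiv ℂ g x)
  have e3 := expand (fderiv ℂ QQ x)
  ext v
  have e2v := congrArg (fun L : (Fin 4 → ℂ) →L[ℂ] ℂ => L v) e2
  have e3v := congrArg (fun L : (Fin 4 → ℂ) →L[ℂ] ℂ => L v) e3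
  simp only [sum_apply, smul_apply, pr,
    ContinuousLinearMap.proj_apply, smul_eq_mul] at e2v e3v
  have e4 : (∑ i, dw a b g i x • pr i) v = ∑ i, dw a b g i x * v i := by
    simp only [sum_apply, smul_apply, pr,
      ContinuousLinearMap.proj_apply, smul_eq_mul]
  rw [e4]
  have e5 : ∑ i, dw a b g i x * v i = (a : ℂ) * x 1 ^ (a - 1) * g x * ((QQ x)⁻¹) ^ b * v 1 +
      x 1 ^ a * ((QQ x)⁻¹) ^ b * fderiv ℂ g x v -
      b * x 1 ^ a * g x * ((QQ x)⁻¹) ^ (b + 1) * fderiv ℂ QQ x v := by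
    rw [e2v, e3v, Finset.mul_sum, Finset.mul_sum]
    simp only [dw, ww, sub_mul, add_mul, Finset.sum_sub_distrib, Finset.sum_add_distrib]
    congr 1
    · congr 1
      · rw [Finset.sum_eq_single (1 : Fin 4)]
        · rw [if_pos rfl]
          ring
        · intro i _ hi
          simp [hi]
        · intro h
          exact absurd (Finset.mem_univ _) h
      · exact Finset.sum_congr rfl fun i _ => by ring
    · exact Finset.sum_congr rfl fun i _ => by ring
  rw [e5]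
  rcases Nat.eq_zero_or_pos b with hb | hb
  · subst hb
    simp [pr]
    ring
  · obtain ⟨c, rfl⟩ : ∃ c, b = c + 1 := ⟨b - 1, by omega⟩
    simp [pr]
    field_simp
    ring

theorem dw_zero (a b : ℕ) (ha : 2 ≤ a) (g : (Fin 4 → ℂ) → ℂ) (i : Fin 4) : dw a b g i 0 = 0 := by
  rw [dw, ww_zero _ _ (by omega), ww_zero _ _ (by omega), ww_zero _ _ (by omega)]
  simp

theorem DW_zero (a b : ℕ) (ha : 2 ≤ a) (g : (Fin 4 → ℂ) → ℂ) : DW a b g 0 = 0 := by
  rw [DW]
  refine Finset.sum_eq_zero fun i _ => ?_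
  rw [dw_zero a b ha]
  exact zero_smul ℂ (pr i)

theorem ww_within (a b : ℕ) (hab : 2 * b + 2 ≤ a) (g : (Fin 4 → ℂ) → ℂ) (hg : ContDiff ℂ ω g)
    {x : Fin 4 → ℂ} (hx : x ∈ MM) :
    HasFDerivWithinAt (ww a b g) ((DW a b g x).restrictScalars ℝ) MM x := by
  by_cases h0 : x = 0
  · subst h0
    rw [DW_zero a b (by omega)]
    rw [hasFDerivWithinAt_iff_isLittleO, Asymptotics.isLittleO_iff]
    intro c hc
    have h1 : ∀ᶠ y : Fin 4 → ℂ in 𝓝[MM] 0, ‖y‖ ^ (a - 2 * b - 1) * ‖g y‖ < c := by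
      have hcont : Continuous (fun y : Fin 4 → ℂ => ‖y‖ ^ (a - 2 * b - 1) * ‖g y‖) := by
        have h1 := hg.continuous.norm
        fun_prop
      have := (hcont.tendsto 0).mono_left (nhdsWithin_le_nhds (s := MM))
      refine this.eventually (gt_mem_nhds ?_)
      have h3 : a - 2 * b - 1 ≠ 0 := by omega
      simpa [h3] using hc
    filter_upwards [h1, self_mem_nhdsWithin] with y hy hyM
    rw [ww_zero a b (by omega)]
    simp only [sub_zero, ContinuousLinearMap.restrictScalars_zero, zero_apply]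
    have h2 := ww_bound a b (by omega) g hyM
    have h3 : ‖y 1‖ ≤ ‖y‖ := norm_le_pi_norm y 1
    have h4 : ‖y 1‖ ^ (a - 2 * b) ≤ ‖y‖ ^ (a - 2 * b) := pow_le_pow_left₀ (norm_nonneg _) h3 _
    calc ‖ww a b g y‖ ≤ ‖y 1‖ ^ (a - 2 * b) * ‖g y‖ := h2
      _ ≤ ‖y‖ ^ (a - 2 * b) * ‖g y‖ := mul_le_mul_of_nonneg_right h4 (norm_nonneg _)
      _ = ‖y‖ ^ (a - 2 * b - 1) * ‖g y‖ * ‖y‖ := by
        have : a - 2 * b = (a - 2 * b - 1) + 1 := by omega
        conv_lhs => rw [this, pow_succ]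
        ring
      _ ≤ c * ‖y‖ := mul_le_mul_of_nonneg_right hy.le (norm_nonneg _)
  · exact ((ww_deriv a b g hg (QQ_ne hx h0)).restrictScalars ℝ).hasFDerivWithinAt

theorem dw_contOn (a b : ℕ) (hab : 2 * b + 3 ≤ a) (g : (Fin 4 → ℂ) → ℂ) (hg : ContDiff ℂ ω g)
    (i : Fin 4) : ContinuousOn (dw a b g i) MM := by
  refine ((ww_contOn _ _ (by omega) _ ?_).add (ww_contOn _ _ (by omega) _ ?_)).sub
    (ww_contOn _ _ (by omega) _ ?_)
  · exact contDiff_const.mul hg
  · exact fd_contDiff hg i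
  · exact (contDiff_const.mul hg).mul (fd_contDiff QQ_contDiff i)

theorem DW_contOn (a b : ℕ) (hab : 2 * b + 3 ≤ a) (g : (Fin 4 → ℂ) → ℂ) (hg : ContDiff ℂ ω g) :
    ContinuousOn (DW a b g) MM := by
  unfold DW
  exact continuousOn_finsetSum _ fun i _ => (dw_contOn a b hab g hg i).smul continuousOn_const

theorem ww_CR (a b : ℕ) (hab : 2 * b + 3 ≤ a) (g : (Fin 4 → ℂ) → ℂ) (hg : ContDiff ℂ ω g) :
    IsCRFunction MM (ww a b g) :=
  isCRFunction_of_deriv (DW a b g) (DW_contOn a b hab g hg)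
    fun _ hq => ww_within a b (by omega) g hg hq

/-- The quotients are of class `C^k` on the manifold. -/
theorem ww_class (k : ℕ) : ∀ (a b : ℕ) (g : (Fin 4 → ℂ) → ℂ), 2 * b + 2 * k + 1 ≤ a →
    ContDiff ℂ ω g → ∀ (m : ℕ) (V : Set (EuclideanSpace ℝ (Fin m)))
    (γ : EuclideanSpace ℝ (Fin m) → (Fin 4 → ℂ)), IsLocalParam MM V γ →
    ContDiffOn ℝ k (fun y => ww a b g (γ y)) V := by
  induction k with
  | zero =>
    intro a b g hab hg m V γ hγ
    have hmaps : MapsTo γ V MM := by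
      intro x hx
      obtain ⟨-, -, -, -, O, -, hO⟩ := hγ
      have : γ x ∈ γ '' V := ⟨x, hx, rfl⟩
      rw [hO] at this
      exact this.1
    rw [Nat.cast_zero, contDiffOn_zero]
    exact (ww_contOn a b (by omega) g hg).comp hγ.2.1.continuousOn hmaps
  | succ k ih =>
    intro a b g hab hg m V γ hγ
    obtain ⟨hV, hγs, hinj, himm, O, hO1, hO⟩ := hγ
    have hγ' : IsLocalParam MM V γ := ⟨hV, hγs, hinj, himm, O, hO1, hO⟩
    have hmaps : MapsTo γ V MM := by
      intro x hx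
      have : γ x ∈ γ '' V := ⟨x, hx, rfl⟩
      rw [hO] at this
      exact this.1
    have hγd : ∀ x ∈ V, HasFDerivAt γ (fderiv ℝ γ x) x := fun x hx =>
      ((hγs.contDiffAt (hV.mem_nhds hx)).differentiableAt (by simp)).hasFDerivAt
    have hd : ∀ x ∈ V, HasFDerivAt (fun y => ww a b g (γ y))
        (((DW a b g (γ x)).restrictScalars ℝ).comp (fderiv ℝ γ x)) x := by
      intro x hx
      have h1 := (ww_within a b (by omega) g hg (hmaps hx)).comp x
        ((hγd x hx).hasFDerivWithinAt (s := V)) hmaps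
      exact h1.hasFDerivAt (hV.mem_nhds hx)
    push_cast
    rw [contDiffOn_succ_iff_fderiv_of_isOpen hV]
    refine ⟨fun x hx => (hd x hx).differentiableAt.differentiableWithinAt, fun h => ?_, ?_⟩
    · exact absurd h (by simp)
    · have h2 : ContDiffOn ℝ k (fun x => ∑ i : Fin 4,
          ((ContinuousLinearMap.mul ℝ ℂ) (dw a b g i (γ x))).comp
            (((pr i).restrictScalars ℝ).comp (fderiv ℝ γ x))) V := by
        refine ContDiffOn.sum fun i _ => ?_
        refine ContDiffOn.clm_comp ?_ ?_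
        · refine (ContinuousLinearMap.mul ℝ ℂ).contDiff.comp_contDiffOn ?_
          refine ((ih (a - 1) b _ (by omega) ?_ m V γ hγ').add
            (ih a b _ (by omega) ?_ m V γ hγ')).sub (ih a (b + 1) _ (by omega) ?_ m V γ hγ')
          · exact contDiff_const.mul hg
          · exact fd_contDiff hg i
          · exact (contDiff_const.mul hg).mul (fd_contDiff QQ_contDiff i)
        · refine ContDiffOn.clm_comp contDiffOn_const ?_
          exact hγs.fderiv_of_isOpen hV (by exact_mod_cast le_top)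
      refine h2.congr fun x hx => ?_
      rw [(hd x hx).fderiv]
      ext v
      simp [DW]

end Pool.Agent.Y503.CR
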